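import Pool.Agent.Helper22.SC.LvU

/-! # Module D3: levels of the relative constructible hierarchy inject into ordinals -/

namespace Pool.Agent.Helper87.SC

universe u

open ZFSet
open Pool.Agent.Helper22.SC
open Pool.Agent.Helper66.SC (Fml Sat IsZF Cls sat_rn mem_Pow img mem_img tc CardLe DefSub Lv CZ oz
  ST_D3)

variable {C : Cls.{u}}
variable {α β γ δ : Type (u + 1)} [Ctx.{u} α] [Ctx.{u} β] [Ctx.{u} γ] [Ctx.{u} δ]

/-! ### Ordinal addition and multiplication -/

/-- ordinal addition of the ranks -/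
noncomputable def oad (a b : ZFSet.{u}) : ZFSet.{u} := (rank a + rank b).toZFSet

/-- ordinal multiplication of the ranks -/
noncomputable def oml (a b : ZFSet.{u}) : ZFSet.{u} := (rank a * rank b).toZFSet

@[simp] theorem rank_oad (a b : ZFSet.{u}) : rank (oad a b) = rank a + rank b :=
  Ordinal.rank_toZFSet _

@[simp] theorem rank_oml (a b : ZFSet.{u}) : rank (oml a b) = rank a * rank b :=
  Ordinal.rank_toZFSet _

theorem oad_rec (a b : ZFSet.{u}) :
    oad a b = rk a ∪ ⋃₀ (img b (fun y => insert (oad a y) (oad a y))) := by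
  ext z
  simp only [oad, rk, mem_union, mem_sUnion, mem_img, Ordinal.mem_toZFSet_iff]
  constructor
  · rintro ⟨c, hc, rfl⟩
    rcases lt_or_ge c (rank a) with h | h
    · exact Or.inl ⟨c, h, rfl⟩
    · right
      obtain ⟨d, rfl⟩ := exists_add_of_le h
      have hd : d < rank b := (add_lt_add_iff_left _).1 hc
      obtain ⟨y, hy, hdy⟩ := lt_rank_iff.1 hd
      refine ⟨_, ⟨y, hy, rfl⟩, ?_⟩
      rw [mem_insert_iff, Ordinal.toZFSet_mem_toZFSet_iff]
      rcases hdy.eq_or_lt with h | h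
      · left; rw [h]
      · right; exact (add_lt_add_iff_left _).2 h
  · rintro (⟨c, hc, rfl⟩ | ⟨w, ⟨y, hy, rfl⟩, hz⟩)
    · exact ⟨c, lt_of_lt_of_le hc le_self_add, rfl⟩
    · rw [mem_insert_iff] at hz
      rcases hz with rfl | hz
      · exact ⟨_, (add_lt_add_iff_left _).2 (rank_lt_of_mem hy), rfl⟩
      · obtain ⟨c, hc, rfl⟩ := Ordinal.mem_toZFSet_iff.1 hz
        exact ⟨c, hc.trans ((add_lt_add_iff_left _).2 (rank_lt_of_mem hy)), rfl⟩

theorem oml_rec (a b : ZFSet.{u}) : oml a b = ⋃₀ (img b (fun y => oad (oml a y) a)) := by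
  ext z
  simp only [mem_sUnion, mem_img]
  constructor
  · intro hz
    rw [oml, Ordinal.mem_toZFSet_iff] at hz
    obtain ⟨c, hc, rfl⟩ := hz
    have h1 : ∃ y ∈ b, c < rank a * rank y + rank a := by
      by_contra hcon
      push Not at hcon
      have h2 : rank a * rank b ≤ c := by
        rcases eq_or_ne (rank a) 0 with h0 | h0
        · rw [h0, zero_mul]; exact zero_le
        · have h3 : rank b ≤ c / rank a := by
            rw [rank_le_iff]
            intro y hy
            have := hcon y hy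
            rw [← mul_add_one] at this
            have h4 := (Ordinal.mul_le_iff_le_div h0).1 this
            exact lt_of_lt_of_le (Order.lt_add_one_iff.2 le_rfl) h4
          exact (Ordinal.mul_le_iff_le_div h0).2 h3
      exact absurd hc (not_lt.2 h2)
    obtain ⟨y, hy, h⟩ := h1
    refine ⟨_, ⟨y, hy, rfl⟩, ?_⟩
    rw [oad, rank_oml, Ordinal.toZFSet_mem_toZFSet_iff]
    exact h
  · rintro ⟨w, ⟨y, hy, rfl⟩, hz⟩
    rw [oad, rank_oml, Ordinal.mem_toZFSet_iff] at hz
    obtain ⟨c, hc, rfl⟩ := hz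
    rw [oml, Ordinal.toZFSet_mem_toZFSet_iff]
    refine lt_of_lt_of_le hc ?_
    rw [← mul_add_one]
    exact mul_le_mul' le_rfl (Order.add_one_le_of_lt (rank_lt_of_mem hy))

theorem U.oad [ZCls C] {f g : Set ZFSet.{u} → Set ZFSet.{u} → α → ZFSet.{u}} (hf : U C f)
    (hg : U C g) : U C (fun N A a => SC.oad (f N A a) (g N A a)) := by
  have h0 : U C (fun _ _ (p : ZFSet.{u} × ZFSet.{u}) => SC.oad p.1 p.2) := by
    refine U.memrec (F := fun _ _ (p : (ZFSet.{u} × ZFSet.{u}) × ZFSet.{u}) =>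
      rk p.1.1 ∪ ZFSet.sUnion (Helper66.SC.img p.2 (fun z =>
        Insert.insert (psnd z) (psnd z)))) (G := fun _ _ a x => SC.oad a x)
      (by apply_rules (transparency := .reducible) (maxDepth := 400) using is_poly) ?_
    intro N A _ a _ x _
    rw [img_gr (h := fun t => insert t t)]
    exact oad_rec a x
  exact U.app2 (h := fun _ _ x y => SC.oad x y) h0 hf hg

attribute [is_poly] U.oad

theorem U.oml [ZCls C] {f g : Set ZFSet.{u} → Set ZFSet.{u} → α → ZFSet.{u}} (hf : U C f)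
    (hg : U C g) : U C (fun N A a => SC.oml (f N A a) (g N A a)) := by
  have h0 : U C (fun _ _ (p : ZFSet.{u} × ZFSet.{u}) => SC.oml p.1 p.2) := by
    refine U.memrec (F := fun _ _ (p : (ZFSet.{u} × ZFSet.{u}) × ZFSet.{u}) =>
      ZFSet.sUnion (Helper66.SC.img p.2 (fun z => SC.oad (psnd z) p.1.1)))
      (G := fun _ _ a x => SC.oml a x)
      (by apply_rules (transparency := .reducible) (maxDepth := 400) using is_poly) ?_
    intro N A _ a _ x _
    rw [img_gr (h := fun t => SC.oad t a)]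
    exact oml_rec a x
  exact U.app2 (h := fun _ _ x y => SC.oml x y) h0 hf hg

attribute [is_poly] U.oml

/-! ### A pairing function on ordinals -/

/-- the pairing function on ordinals -/
noncomputable def gq (a b : Ordinal.{u}) : Ordinal.{u} := (a + b) * (a + b) + a

theorem gq_inj {a b a' b' : Ordinal.{u}} (h : gq a b = gq a' b') : a = a' ∧ b = b' := by
  have key : ∀ s s' a a' : Ordinal.{u}, a ≤ s → s < s' → s * s + a < s' * s' + a' := by
    intro s s' a a' h1 h2
    have h3 : s + 1 ≤ s' := Order.add_one_le_of_lt h2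
    have h4 : s * s + a < (s + 1) * (s + 1) := by
      rw [mul_add_one]
      have h5 : s * s + a ≤ (s + 1) * s + s :=
        add_le_add (mul_le_mul' le_self_add le_rfl) h1
      refine lt_of_le_of_lt h5 ((add_lt_add_iff_left _).2 ?_)
      exact Order.lt_add_one_iff.2 le_rfl
    exact lt_of_lt_of_le h4 ((mul_le_mul' h3 h3).trans le_self_add)
  have hs : a + b = a' + b' := by
    rcases lt_trichotomy (a + b) (a' + b') with h1 | h1 | h1
    · exact absurd h (ne_of_lt (key _ _ _ _ le_self_add h1))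
    · exact h1
    · exact absurd h.symm (ne_of_lt (key _ _ _ _ le_self_add h1))
  unfold gq at h
  rw [hs] at h
  have ha : a = a' := (add_right_inj _).1 h
  subst ha
  exact ⟨rfl, (add_right_inj _).1 hs⟩

/-- the pairing function on sets which are ordinals -/
noncomputable def gp (a b : ZFSet.{u}) : ZFSet.{u} := oad (oml (oad a b) (oad a b)) a

theorem gp_eq (a b : ZFSet.{u}) : gp a b = (gq (rank a) (rank b)).toZFSet := by
  unfold gp gq
  rw [oad, rank_oml, rank_oad]

theorem rank_gp (a b : ZFSet.{u}) : rank (gp a b) = gq (rank a) (rank b) := by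
  rw [gp_eq, Ordinal.rank_toZFSet]

theorem gp_inj {a b a' b' : ZFSet.{u}} (h : gp a b = gp a' b') :
    rank a = rank a' ∧ rank b = rank b' := by
  have := congrArg rank h
  rw [rank_gp, rank_gp] at this
  exact gq_inj this

theorem U.gp [ZCls C] {f g : Set ZFSet.{u} → Set ZFSet.{u} → α → ZFSet.{u}} (hf : U C f)
    (hg : U C g) : U C (fun N A a => SC.gp (f N A a) (g N A a)) := by
  unfold SC.gp
  apply_rules (transparency := .reducible) (maxDepth := 400) using is_poly

attribute [is_poly] U.gp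

/-! ### Codes of hereditary pairs of ordinals -/

/-- the components -/
noncomputable def jP (x : ZFSet.{u}) : ZFSet.{u} :=
  ZFSet.sep (fun y => rk y ∈ rk x) {pfst x, psnd x}

theorem rank_of_jP {x y : ZFSet.{u}} (h : y ∈ jP x) : rank y < rank x := by
  unfold jP at h
  rw [mem_sep] at h
  exact rk_mem_rk.1 h.2

theorem rank_lt_pair (a b : ZFSet.{u}) : rank a < rank (ZFSet.pair a b) ∧
    rank b < rank (ZFSet.pair a b) := by
  constructor
  · exact (rank_lt_of_mem (show a ∈ ({a, b} : ZFSet.{u}) by simp)).trans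
      (rank_lt_of_mem (by simp [ZFSet.pair]))
  · exact (rank_lt_of_mem (show b ∈ ({a, b} : ZFSet.{u}) by simp)).trans
      (rank_lt_of_mem (by simp [ZFSet.pair]))

open Classical in
/-- recursion step for `jj` -/
noncomputable def jF (x g : ZFSet.{u}) : ZFSet.{u} :=
  if x.IsOrdinal then gp (nat 0) x else gp (nat 1) (gp (app g (pfst x)) (app g (psnd x)))

/-- the code of a hereditary pair of ordinals -/
noncomputable def jj (x : ZFSet.{u}) : ZFSet.{u} := rrec jF jP x

theorem jj_eq (x : ZFSet.{u}) : jj x = jF x (gr (jP x) jj) :=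
  rrec_eq (fun _ hy => rank_of_jP hy)

theorem U.jj [ZCls C] {f : Set ZFSet.{u} → Set ZFSet.{u} → α → ZFSet.{u}} (hf : U C f) :
    U C (fun N A a => SC.jj (f N A a)) := by
  have h0 : U C (fun _ _ (p : ZFSet.{u}) => SC.jj p) := by
    unfold SC.jj
    refine U.rrec (α := ZFSet.{u}) (F := fun _ _ _ x g => jF x g) (P := fun _ _ _ x => jP x)
      ?_ ?_ (fun _ _ _ _ _ _ h => rank_of_jP h) U.id
    · unfold jF
      refine U.ite ?_ ?_ ?_
      · apply_rules (transparency := .reducible) (maxDepth := 400) using is_poly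
      · apply_rules (transparency := .reducible) (maxDepth := 400) using is_poly
      · apply_rules (transparency := .reducible) (maxDepth := 400) using is_poly
    · unfold jP
      apply_rules (transparency := .reducible) (maxDepth := 400) using is_poly
  exact h0.comp hf

attribute [is_poly] U.jj

theorem jj_ord {x : ZFSet.{u}} (h : x.IsOrdinal) : jj x = gp (nat 0) x := by
  rw [jj_eq, jF, if_pos h]

theorem not_ord_pair (x y : ZFSet.{u}) : ¬ (ZFSet.pair x y).IsOrdinal := by
  intro h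
  obtain ⟨o, ho⟩ := isOrdinal_iff_mem_range_toZFSet.1 h
  have h1 : ({x} : ZFSet.{u}) ∈ ZFSet.pair x y := by simp [ZFSet.pair]
  have h2 : (∅ : ZFSet.{u}) ∈ ZFSet.pair x y := by
    rw [← ho] at h1 ⊢
    obtain ⟨a, ha, _⟩ := Ordinal.mem_toZFSet_iff.1 h1
    rw [← Ordinal.toZFSet_zero, Ordinal.toZFSet_mem_toZFSet_iff]
    exact lt_of_le_of_lt zero_le ha
  simp only [ZFSet.pair, ZFSet.mem_pair] at h2
  rcases h2 with h2 | h2
  · have : x ∈ (∅ : ZFSet.{u}) := by rw [h2]; simp
    exact notMem_empty _ this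
  · have : x ∈ (∅ : ZFSet.{u}) := by rw [h2]; simp
    exact notMem_empty _ this

theorem jj_pair (x y : ZFSet.{u}) : jj (ZFSet.pair x y) = gp (nat 1) (gp (jj x) (jj y)) := by
  rw [jj_eq, jF, if_neg (not_ord_pair x y), pfst_pair, psnd_pair, app_gr, app_gr]
  · unfold jP
    rw [mem_sep, psnd_pair]
    exact ⟨by simp, rk_mem_rk.2 (rank_lt_pair x y).2⟩
  · unfold jP
    rw [mem_sep, pfst_pair]
    exact ⟨by simp, rk_mem_rk.2 (rank_lt_pair x y).1⟩

theorem jj_toZFSet (x : ZFSet.{u}) : (rank (jj x)).toZFSet = jj x := by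
  have : ∃ a b, jj x = gp a b := by
    rw [jj_eq, jF]
    split_ifs
    · exact ⟨_, _, rfl⟩
    · exact ⟨_, _, rfl⟩
  obtain ⟨a, b, h⟩ := this
  rw [h, rank_gp, gp_eq]

/-- the hereditary pairs of ordinals -/
inductive Tm : ZFSet.{u} → Prop
  | ord {x : ZFSet.{u}} : x.IsOrdinal → Tm x
  | pair {x y : ZFSet.{u}} : Tm x → Tm y → Tm (ZFSet.pair x y)

theorem jj_inj {x : ZFSet.{u}} (hx : Tm x) : ∀ {y : ZFSet.{u}}, Tm y → jj x = jj y → x = y := by
  have h01 : rank (nat 0 : ZFSet.{u}) ≠ rank (nat 1 : ZFSet.{u}) := by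
    simp [nat]
  induction hx with
  | @ord x hx =>
    intro y hy h
    cases hy with
    | ord hy =>
      rw [jj_ord hx, jj_ord hy] at h
      have := (gp_inj h).2
      rw [← hx.toZFSet_rank_eq, ← hy.toZFSet_rank_eq, this]
    | pair _ _ =>
      rw [jj_ord hx, jj_pair] at h
      exact absurd (gp_inj h).1 h01
  | @pair x1 x2 _ _ ih1 ih2 =>
    intro y hy h
    cases hy with
    | ord hy =>
      rw [jj_ord hy, jj_pair] at h
      exact absurd (gp_inj h).1.symm h01
    | @pair y1 y2 h1 h2 =>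
      rw [jj_pair, jj_pair] at h
      have h3 := (gp_inj h).2
      rw [rank_gp, rank_gp] at h3
      obtain ⟨h4, h5⟩ := gq_inj h3
      have h6 : jj x1 = jj y1 := by rw [← jj_toZFSet x1, ← jj_toZFSet y1, h4]
      have h7 : jj x2 = jj y2 := by rw [← jj_toZFSet x2, ← jj_toZFSet y2, h5]
      rw [ih1 h1 h6, ih2 h2 h7]

/-! ### Evaluation of terms -/

/-- the immediate subterms -/
noncomputable def eP (x : ZFSet.{u}) : ZFSet.{u} :=
  ZFSet.sep (fun y => rk y ∈ rk x) {pfst (psnd x), psnd (psnd x), psnd (psnd (psnd x))}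

theorem rank_of_eP {x y : ZFSet.{u}} (h : y ∈ eP x) : rank y < rank x := by
  unfold eP at h
  rw [mem_sep] at h
  exact rk_mem_rk.1 h.2

/-- the subset of `L_(rank a)[A]` defined by `c` with parameters `t` -/
noncomputable def eD (A : Set ZFSet.{u}) (a c t : ZFSet.{u}) : ZFSet.{u} :=
  ZFSet.sep (fun z => ZFSet.pair z t ∈
    satS (Lv A (rank a)) (ZFSet.sep (fun z => z ∈ A) (Lv A (rank a))) c) (Lv A (rank a))

open Classical in
/-- recursion step of the evaluation -/
noncomputable def eF (A : Set ZFSet.{u}) (x g : ZFSet.{u}) : ZFSet.{u} :=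
  if pfst x = nat 1 then ZFSet.pair (app g (pfst (psnd x))) (app g (psnd (psnd x))) else
  if pfst x = nat 2 then eD A (pfst (psnd x)) (pfst (psnd (psnd x)))
    (app g (psnd (psnd (psnd x)))) else ∅

/-- evaluation -/
noncomputable def ev (A : Set ZFSet.{u}) (x : ZFSet.{u}) : ZFSet.{u} := rrec (eF A) eP x

theorem ev_eq (A : Set ZFSet.{u}) (x : ZFSet.{u}) : ev A x = eF A x (gr (eP x) (ev A)) :=
  rrec_eq (fun _ hy => rank_of_eP hy)

theorem pfst_empty : (pfst ∅ : ZFSet.{u}) = ∅ := by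
  unfold pfst
  ext z
  simp

theorem nat_ne_zero {n : ℕ} (h : n ≠ 0) : (∅ : ZFSet.{u}) ≠ nat n := by
  rw [← nat_zero]
  exact fun h' => h (nat_inj.1 h').symm

theorem ev_empty (A : Set ZFSet.{u}) : ev A ∅ = ∅ := by
  rw [ev_eq, eF, pfst_empty, if_neg (nat_ne_zero (by decide)), if_neg (nat_ne_zero (by decide))]

theorem ev_cons (A : Set ZFSet.{u}) (x t : ZFSet.{u}) :
    ev A (ZFSet.pair (nat 1) (ZFSet.pair x t)) = ZFSet.pair (ev A x) (ev A t) := by
  rw [ev_eq, eF, pfst_pair, if_pos rfl, psnd_pair, pfst_pair, psnd_pair, app_gr, app_gr]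
  · unfold eP
    rw [mem_sep, psnd_pair, psnd_pair]
    exact ⟨by simp, rk_mem_rk.2 ((rank_lt_pair x t).2.trans (rank_lt_pair _ _).2)⟩
  · unfold eP
    rw [mem_sep, psnd_pair, pfst_pair]
    exact ⟨by simp, rk_mem_rk.2 ((rank_lt_pair x t).1.trans (rank_lt_pair _ _).2)⟩

theorem ev_def (A : Set ZFSet.{u}) (a c t : ZFSet.{u}) :
    ev A (ZFSet.pair (nat 2) (ZFSet.pair a (ZFSet.pair c t))) = eD A a c (ev A t) := by
  rw [ev_eq, eF, pfst_pair, if_neg (nat_ne (by decide)), if_pos rfl, psnd_pair, pfst_pair,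
    psnd_pair, pfst_pair, psnd_pair, app_gr]
  unfold eP
  rw [mem_sep, psnd_pair, psnd_pair, psnd_pair]
  exact ⟨by simp, rk_mem_rk.2 ((rank_lt_pair c t).2.trans ((rank_lt_pair _ _).2.trans
    (rank_lt_pair _ _).2))⟩

theorem U.ev [ZCls C] {f : Set ZFSet.{u} → Set ZFSet.{u} → α → ZFSet.{u}} (hf : U C f) :
    U C (fun N A a => SC.ev A (f N A a)) := by
  have h0 : U C (fun _ A (p : ZFSet.{u}) => SC.ev A p) := by
    unfold SC.ev
    refine U.rrec (α := ZFSet.{u}) (F := fun _ A _ x g => eF A x g) (P := fun _ _ _ x => eP x)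
      ?_ ?_ (fun _ _ _ _ _ _ h => rank_of_eP h) U.id
    · unfold eF
      refine U.ite (by apply_rules (transparency := .reducible) (maxDepth := 400) using is_poly)
        (by apply_rules (transparency := .reducible) (maxDepth := 400) using is_poly) ?_
      refine U.ite (by apply_rules (transparency := .reducible) (maxDepth := 400) using is_poly)
        ?_ (by apply_rules (transparency := .reducible) (maxDepth := 400) using is_poly)
      have h1 : U C (fun _ A (p : (ZFSet.{u} × ZFSet.{u}) × ZFSet.{u}) =>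
          eD A p.1.1 p.1.2 p.2) := by
        unfold eD
        have hl : U C (fun _ A (p : ZFSet.{u}) => Lv A (rank p)) :=
          U.lv (B := fun _ A _ => A) U.id (URel.prd U.id.snd)
        have hl1 : U C (fun _ A (p : (ZFSet.{u} × ZFSet.{u}) × ZFSet.{u}) =>
            Lv A (rank p.1.1)) := U.app1 (h := fun _ A p => Lv A (rank p)) hl
              (by apply_rules (transparency := .reducible) (maxDepth := 400) using is_poly)
        have hl2 : U C (fun _ A (p : ((ZFSet.{u} × ZFSet.{u}) × ZFSet.{u}) × ZFSet.{u}) =>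
            Lv A (rank p.1.1.1)) := U.app1 (h := fun _ A p => Lv A (rank p)) hl
              (by apply_rules (transparency := .reducible) (maxDepth := 400) using is_poly)
        refine U.sep hl1 ?_
        refine URel.mem
          (by apply_rules (transparency := .reducible) (maxDepth := 400) using is_poly) ?_
        refine U.satS hl2 ?_
          (by apply_rules (transparency := .reducible) (maxDepth := 400) using is_poly)
        exact U.sep hl2
          (by apply_rules (transparency := .reducible) (maxDepth := 400) using is_poly)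
      exact U.app3 (h := fun _ A a c t => eD A a c t) h1
        (by apply_rules (transparency := .reducible) (maxDepth := 400) using is_poly)
        (by apply_rules (transparency := .reducible) (maxDepth := 400) using is_poly)
        (by apply_rules (transparency := .reducible) (maxDepth := 400) using is_poly)
    · unfold eP
      apply_rules (transparency := .reducible) (maxDepth := 400) using is_poly
  exact U.app1 (h := fun _ A p => SC.ev A p) h0 hf

attribute [is_poly] U.ev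

/-! ### The set of terms -/

/-- the closure of `B` under pairs -/
noncomputable def hp (B : ZFSet.{u}) : ZFSet.{u} := cl (fun X => X.prod X) B

theorem U.hp [ZCls C] {f : Set ZFSet.{u} → Set ZFSet.{u} → α → ZFSet.{u}} (hf : U C f) :
    U C (fun N A a => SC.hp (f N A a)) := by
  unfold SC.hp
  refine U.cl (T := fun _ _ _ X => X.prod X) ?_ hf
  apply_rules (transparency := .reducible) (maxDepth := 400) using is_poly

attribute [is_poly] U.hp

theorem mem_hp_of_mem {B x : ZFSet.{u}} (h : x ∈ B) : x ∈ hp B := mem_cl.2 ⟨0, h⟩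

theorem pair_mem_hp {B x y : ZFSet.{u}} (hx : x ∈ hp B) (hy : y ∈ hp B) :
    ZFSet.pair x y ∈ hp B := by
  obtain ⟨n, h1, h2⟩ := mem_cl_two hx hy
  exact code_mem_cl (n := n) (pair_mem_prod.2 ⟨h1, h2⟩)

theorem tm_of_hp {B : ZFSet.{u}} (hB : ∀ x ∈ B, x.IsOrdinal) : ∀ x ∈ hp B, Tm x := by
  have h : ∀ n, ∀ x ∈ clN (fun X => X.prod X) B n, Tm x := by
    intro n
    induction n with
    | zero => exact fun x hx => .ord (hB x hx)
    | succ n ih =>
      intro x hx
      rcases mem_union.1 hx with h | h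
      · exact ih x h
      · obtain ⟨a, ha, b, hb, rfl⟩ := mem_prod.1 h
        exact .pair (ih a ha) (ih b hb)
  intro x hx
  obtain ⟨n, hn⟩ := mem_cl.1 hx
  exact h n x hn

theorem code_mem_hp {B : ZFSet.{u}} (hB : (omega : ZFSet.{u}) ⊆ B) {k : ℕ} (φ : Fml k) :
    code φ ∈ hp B := by
  have hn : ∀ n : ℕ, nat n ∈ hp B := fun n => mem_hp_of_mem (hB (nat_mem_omega n))
  have he : (∅ : ZFSet.{u}) ∈ hp B := by simpa using hn 0
  have hm : ∀ {a b c d : ZFSet.{u}}, a ∈ hp B → b ∈ hp B → c ∈ hp B → d ∈ hp B →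
      mkc a b c d ∈ hp B := fun h1 h2 h3 h4 => pair_mem_hp h1 (pair_mem_hp h2 (pair_mem_hp h3 h4))
  induction φ with
  | mem i j => exact hm (hn _) (hn _) (hn _) (hn _)
  | eq i j => exact hm (hn _) (hn _) (hn _) (hn _)
  | pr i => exact hm (hn _) (hn _) (hn _) he
  | neg φ ih => exact hm (hn _) (hn _) ih he
  | and φ ψ ih1 ih2 => exact hm (hn _) (hn _) ih1 ih2
  | ex φ ih => exact hm (hn _) (hn _) ih he

theorem tup_ev {A : Set ZFSet.{u}} {B : ZFSet.{u}} (hB : (omega : ZFSet.{u}) ⊆ B) {k : ℕ}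
    (p : Fin k → ZFSet.{u}) (hp' : ∀ i, ∃ y ∈ hp B, ev A y = p i) :
    ∃ t ∈ hp B, ev A t = tup p := by
  have hn : ∀ n : ℕ, nat n ∈ hp B := fun n => mem_hp_of_mem (hB (nat_mem_omega n))
  induction k with
  | zero => exact ⟨∅, by simpa using hn 0, ev_empty A⟩
  | succ k ih =>
    obtain ⟨y, hy, hy1⟩ := hp' 0
    obtain ⟨t, ht, ht1⟩ := ih (Fin.tail p) (fun i => hp' i.succ)
    refine ⟨ZFSet.pair (nat 1) (ZFSet.pair y t), pair_mem_hp (hn 1) (pair_mem_hp hy ht), ?_⟩
    rw [ev_cons, hy1, ht1, tup_succ]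

theorem lv_ev {A : Set ZFSet.{u}} {B : ZFSet.{u}} (hB : (omega : ZFSet.{u}) ⊆ B)
    {o : Ordinal.{u}} (ho : o.toZFSet ⊆ B) : ∀ o' ≤ o, ∀ x ∈ Lv A o', ∃ y ∈ hp B,
      ev A y = x := by
  intro o'
  induction o' using WellFoundedLT.induction with
  | ind o' ih =>
    intro ho' x hx
    rw [mem_Lv] at hx
    obtain ⟨a, ha, hx⟩ := hx
    rw [defSub_eq, defS, mem_img] at hx
    obtain ⟨z, hz, rfl⟩ := hx
    rw [mem_prod] at hz
    obtain ⟨c, hc, e, he, rfl⟩ := hz
    obtain ⟨k', φ, rfl⟩ := mem_fml.1 hc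
    obtain ⟨k, p, hp', rfl⟩ := mem_tuples.1 he
    obtain ⟨t, ht, ht1⟩ := tup_ev hB p (fun i => ih a ha (ha.le.trans ho') (p i) (hp' i))
    refine ⟨ZFSet.pair (nat 2) (ZFSet.pair a.toZFSet (ZFSet.pair (code φ) t)),
      pair_mem_hp (mem_hp_of_mem (hB (nat_mem_omega 2))) (pair_mem_hp (mem_hp_of_mem (ho ?_))
        (pair_mem_hp (code_mem_hp hB φ) ht)), ?_⟩
    · rw [Ordinal.toZFSet_mem_toZFSet_iff]
      exact lt_of_lt_of_le ha ho'
    · rw [ev_def, eD, Ordinal.rank_toZFSet, ht1, pfst_pair, psnd_pair]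

/-! ### The injection -/

/-- the least code of a term with value `x` -/
noncomputable def ee (A : Set ZFSet.{u}) (B x : ZFSet.{u}) : ZFSet.{u} :=
  ZFSet.sep (fun z => ∀ y ∈ hp B, ev A y = x → z ∈ jj y) (⋃₀ (img (hp B) jj))

theorem U.ee [ZCls C] : U C (fun _ A (p : ZFSet.{u} × ZFSet.{u}) => SC.ee A p.1 p.2) := by
  unfold SC.ee
  apply_rules (transparency := .reducible) (maxDepth := 400) using is_poly

theorem ee_eq {A : Set ZFSet.{u}} {B x : ZFSet.{u}} (h : ∃ y ∈ hp B, ev A y = x) :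
    ∃ y ∈ hp B, ev A y = x ∧ ee A B x = jj y := by
  obtain ⟨y, hy, hmin⟩ := (InvImage.wf (fun y => rank (jj y))
    (wellFounded_lt (α := Ordinal.{u}))).has_min {y | y ∈ hp B ∧ ev A y = x} h
  refine ⟨y, hy.1, hy.2, ?_⟩
  ext z
  unfold ee
  rw [mem_sep, mem_sUnion]
  constructor
  · exact fun h => h.2 y hy.1 hy.2
  · intro hz
    refine ⟨⟨jj y, mem_img.2 ⟨y, hy.1, rfl⟩, hz⟩, fun y' hy' hy'' => ?_⟩
    have h1 : rank (jj y) ≤ rank (jj y') := not_lt.1 (hmin y' ⟨hy', hy''⟩)
    have h2 : jj y ⊆ jj y' := by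
      rw [← jj_toZFSet y, ← jj_toZFSet y', Ordinal.toZFSet_subset_toZFSet_iff]
      exact h1
    exact h2 hz

theorem st_D3 : ST_D3.{u} := by
  intro M A hM o ho
  have hC : CZ M A := hM
  set B : ZFSet.{u} := o.toZFSet ∪ omega with hBdef
  have hBM : B ∈ M := by
    have h := (U.union (C := CZ) (α := ZFSet.{u}) U.id U.omega).closed hC
      (a := o.toZFSet) (in_zfset.2 ho)
    exact in_zfset.1 h
  have hB1 : (omega : ZFSet.{u}) ⊆ B := fun x hx => mem_union.2 (Or.inr hx)
  have hB2 : o.toZFSet ⊆ B := fun x hx => mem_union.2 (Or.inl hx)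
  have hB3 : ∀ x ∈ B, x.IsOrdinal := by
    intro x hx
    rcases mem_union.1 hx with h | h
    · exact (isOrdinal_toZFSet o).mem h
    · exact isOrdinal_omega.mem h
  have hW : (⋃₀ (img (hp B) jj) : ZFSet.{u}) ∈ M := by
    have h : U CZ (fun _ _ (p : ZFSet.{u}) => (ZFSet.sUnion (img (hp p) jj) : ZFSet.{u})) := by
      apply_rules (transparency := .reducible) (maxDepth := 400) using is_poly
    exact in_zfset.1 (h.closed hC (a := B) (in_zfset.2 hBM))
  have hL : Lv A o ∈ M := by
    have h : U CZ (fun _ A (p : ZFSet.{u}) => Lv A (rank p)) :=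
      U.lv (B := fun _ A _ => A) U.id (URel.prd U.id.snd)
    have := in_zfset.1 (h.closed hC (a := o.toZFSet) (in_zfset.2 ho))
    rwa [Ordinal.rank_toZFSet] at this
  have hf : gr (Lv A o) (ee A B) ∈ M := by
    have h : U CZ (fun _ A (p : ZFSet.{u} × ZFSet.{u}) => gr p.1 (SC.ee A p.2)) :=
      U.gr (g := fun _ A (p : ZFSet.{u} × ZFSet.{u}) x => SC.ee A p.2 x) U.id.fst
        (U.app2 (h := fun _ A x y => SC.ee A x y) U.ee
        (by apply_rules (transparency := .reducible) (maxDepth := 400) using is_poly)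
        (by apply_rules (transparency := .reducible) (maxDepth := 400) using is_poly))
    exact in_zfset.1 (h.closed hC (a := (Lv A o, B)) (by simp [hL, hBM]))
  have hev : ∀ x ∈ Lv A o, ∃ y ∈ hp B, ev A y = x ∧ ee A B x = jj y := fun x hx =>
    ee_eq (lv_ev hB1 hB2 o le_rfl x hx)
  refine ⟨rank (⋃₀ (img (hp B) jj) : ZFSet.{u}) + 1, ?_, gr (Lv A o) (ee A B), hf, ?_, ?_⟩
  · rw [oz, Ordinal.toZFSet_add_one]
    exact hM.succ_mem (hM.rk_mem hW)
  · rw [isFunc_iff]
    have hval : ∀ x ∈ Lv A o, ee A B x ∈ oz (rank (⋃₀ (img (hp B) jj) : ZFSet.{u}) + 1) := by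
      intro x hx
      obtain ⟨y, hy, _, h⟩ := hev x hx
      rw [h, oz, ← jj_toZFSet y, Ordinal.toZFSet_mem_toZFSet_iff]
      refine Order.lt_add_one_iff.2 (rank_mono ?_)
      intro z hz
      exact mem_sUnion.2 ⟨jj y, mem_img.2 ⟨y, hy, rfl⟩, hz⟩
    refine ⟨?_, ?_, ?_⟩
    · intro z hz
      obtain ⟨x, hx, rfl⟩ := mem_gr.1 hz
      exact pair_mem_prod.2 ⟨hx, hval x hx⟩
    · intro x hx
      exact ⟨_, hval x hx, pair_mem_gr.2 ⟨hx, rfl⟩⟩
    · intro x _ w _ w' _ h1 h2
      rw [(pair_mem_gr.1 h1).2, (pair_mem_gr.1 h2).2]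
  · intro x hx x' hx' z h1 h2
    have h3 : ee A B x = ee A B x' := by rw [← (pair_mem_gr.1 h1).2, ← (pair_mem_gr.1 h2).2]
    obtain ⟨y, hy, hy1, hy2⟩ := hev x hx
    obtain ⟨y', hy', hy1', hy2'⟩ := hev x' hx'
    rw [hy2, hy2'] at h3
    have h4 := jj_inj (tm_of_hp hB3 y hy) (tm_of_hp hB3 y' hy') h3
    rw [← hy1, ← hy1', h4]

end Pool.Agent.Helper87.SC
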